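import Pool.Agent.Helper89K9.MC.Stm

/-! # Project MC, leaf COLS: sum over the matrices of the number of constant columns (helper90) -/

set_option autoImplicit false

namespace Pool.Agent.Helper90K9.MC

open Finset
open Pool.Agent.Helper89K9.MC

theorem cols : S_COLS := by
  classical
  intro p hp V _ _ U β
  -- one column
  have hcol : ∑ c : Fin p → Bool, (if ∀ j k, c j = c k then β else 1) =
      (2 : ℝ) ^ p * (1 - (1 - β) / 2 ^ (p - 1)) := by
    have h1 : ∀ c : Fin p → Bool, (if ∀ j k, c j = c k then β else 1) =
        1 + (if ∀ j k, c j = c k then β - 1 else 0) := by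
      intro c
      split_ifs <;> ring
    rw [Finset.sum_congr rfl fun c _ => h1 c, Finset.sum_add_distrib, Finset.sum_const, card_univ,
      Fintype.card_fun, Fintype.card_fin, Fintype.card_bool, ← Finset.sum_filter,
      Finset.sum_const]
    have h2 : (univ.filter fun c : Fin p → Bool => ∀ j k, c j = c k) =
        {fun _ => true, fun _ => false} := by
      ext c
      rw [mem_filter, mem_insert, mem_singleton]
      constructor
      · rintro ⟨-, h⟩
        rcases hb : c ⟨0, hp⟩ with _ | _
        · right
          funext j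
          rw [h j ⟨0, hp⟩, hb]
        · left
          funext j
          rw [h j ⟨0, hp⟩, hb]
      · rintro (rfl | rfl) <;> exact ⟨mem_univ _, fun _ _ => rfl⟩
    have h3 : (fun _ : Fin p => true) ≠ fun _ => false := by
      intro h
      have := congrFun h ⟨0, hp⟩
      simp at this
    rw [h2, Finset.card_pair h3]
    obtain ⟨q, rfl⟩ : ∃ q, p = q + 1 := ⟨p - 1, by omega⟩
    rw [Nat.add_sub_cancel]
    have h4 : (2 : ℝ) ^ q ≠ 0 := by positivity
    rw [nsmul_eq_mul, nsmul_eq_mul, pow_succ]
    push_cast
    field_simp
    ring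
  -- all columns
  have hprod : ∀ x : Fin p → V → Bool,
      β ^ (U.filter (fun i => ∀ j k, x j i = x k i)).card =
        ∏ i : V, (if i ∈ U then (if ∀ j k, x j i = x k i then β else 1) else 1) := by
    intro x
    rw [← Finset.prod_filter (s := univ) (p := fun i => i ∈ U)
      (f := fun i => if ∀ j k, x j i = x k i then β else 1)]
    have h1 : (univ.filter fun i => i ∈ U) = U := by
      ext i; simp
    rw [h1, ← Finset.prod_filter, Finset.prod_const]
  rw [Finset.sum_congr rfl fun x _ => hprod x]
  have hsw : ∑ x : Fin p → V → Bool,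
      ∏ i : V, (if i ∈ U then (if ∀ j k, x j i = x k i then β else 1) else 1) =
      ∑ y : V → Fin p → Bool,
        ∏ i : V, (if i ∈ U then (if ∀ j k, y i j = y i k then β else 1) else 1) :=
    Fintype.sum_equiv (Equiv.piComm fun _ _ => Bool) _ _ fun x => rfl
  rw [hsw]
  have h5 := Finset.prod_univ_sum (fun _ : V => (univ : Finset (Fin p → Bool)))
    (fun i c => if i ∈ U then (if ∀ j k, c j = c k then β else (1 : ℝ)) else 1)
  rw [Fintype.piFinset_univ] at h5
  rw [← h5]
  have h6 : ∀ i : V, ∑ c : Fin p → Bool,
      (if i ∈ U then (if ∀ j k, c j = c k then β else (1 : ℝ)) else 1) =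
      (2 : ℝ) ^ p * (if i ∈ U then (1 - (1 - β) / 2 ^ (p - 1)) else 1) := by
    intro i
    by_cases hi : i ∈ U
    · simp only [if_pos hi]
      exact hcol
    · simp only [if_neg hi]
      rw [Finset.sum_const, card_univ, Fintype.card_fun, Fintype.card_fin, Fintype.card_bool]
      simp
  rw [Finset.prod_congr rfl fun i _ => h6 i, Finset.prod_mul_distrib, Finset.prod_const,
    card_univ, ← Finset.prod_filter, Finset.prod_const]
  congr 2
  congr 1
  ext i
  simp

end Pool.Agent.Helper90K9.MC
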