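import Pool.Agent.Helper89K9.MC.Stm

/-! # Project MC, leaf DROP: the degree drops (helper90) -/

set_option autoImplicit false

namespace Pool.Agent.Helper90K9.MC

open Finset
open Pool.Agent.Helper89K9.MC
open H746R3.Inv

theorem drop : S_DROP := by
  classical
  intro p hp V _ _ d Q hQ x I hI
  refine Submodule.span_induction (p := fun Q _ => (fun z : V → Bool => ∑ j, Q (fun i =>
    if i ∈ I then xor (x j i) (z i) else x j i)) ∈ LD (ZMod p) V d) ?_ ?_ ?_ ?_ hQ
  · rintro Q ⟨B, hB, rfl⟩
    by_cases hBI : B ⊆ I
    · have h0 : (fun z : V → Bool => ∑ j, (mono B (fun i =>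
          if i ∈ I then xor (x j i) (z i) else x j i) : ZMod p)) = 0 := by
        funext z
        have j0 : Fin p := ⟨0, hp.out.pos⟩
        have hterm : ∀ j : Fin p, (mono B (fun i => if i ∈ I then xor (x j i) (z i) else x j i) :
            ZMod p) = mono B (fun i => if i ∈ I then xor (x j0 i) (z i) else x j0 i) := by
          intro j
          unfold mono
          refine Finset.prod_congr rfl fun i hi => ?_
          simp only [if_pos (hBI hi), hI i (hBI hi) j j0]
        rw [Finset.sum_congr rfl fun j _ => hterm j, Finset.sum_const, card_univ,
          Fintype.card_fin, nsmul_eq_mul, CharP.cast_eq_zero, zero_mul]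
        rfl
      rw [h0]
      exact Submodule.zero_mem _
    · have hcard : (B ∩ I).card ≤ d := by
        have h1 : (B ∩ I).card < B.card := by
          refine Finset.card_lt_card ⟨Finset.inter_subset_left, fun h => hBI fun i hi => ?_⟩
          exact (Finset.mem_inter.1 (h hi)).2
        omega
      have hterm : ∀ j : Fin p, (fun z : V → Bool => (mono B (fun i =>
          if i ∈ I then xor (x j i) (z i) else x j i) : ZMod p)) ∈ LD (ZMod p) V d := by
        intro j
        have h1 : (fun z : V → Bool => (mono B (fun i =>
            if i ∈ I then xor (x j i) (z i) else x j i) : ZMod p)) =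
            (∏ i ∈ B \ I, bK (x j i) : ZMod p) •
              ∏ i ∈ B ∩ I, (fun z : V → Bool => (bK (xor (x j i) (z i)) : ZMod p)) := by
          funext z
          rw [Pi.smul_apply, Finset.prod_apply, smul_eq_mul]
          unfold mono
          rw [← Finset.prod_inter_mul_prod_sdiff B I, mul_comm]
          congr 1
          · refine Finset.prod_congr rfl fun i hi => ?_
            simp only [if_neg (Finset.mem_sdiff.1 hi).2]
          · refine Finset.prod_congr rfl fun i hi => ?_
            simp only [if_pos (Finset.mem_inter.1 hi).2]
        rw [h1]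
        refine Submodule.smul_mem _ _ ?_
        have h2 := prod_mem' (K := ZMod p) (B ∩ I)
          (fun i => fun z : V → Bool => (bK (xor (x j i) (z i)) : ZMod p)) (fun _ => 1)
          (fun i _ => bit_mem (fun b => (bK (xor (x j i) b) : ZMod p)) i)
        refine LD_mono ?_ h2
        rw [Finset.sum_const, smul_eq_mul, mul_one]
        exact hcard
      have h3 : (fun z : V → Bool => ∑ j, (mono B (fun i =>
          if i ∈ I then xor (x j i) (z i) else x j i) : ZMod p)) = ∑ j, (fun z : V → Bool =>
          (mono B (fun i => if i ∈ I then xor (x j i) (z i) else x j i) : ZMod p)) := by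
        funext z
        rw [Finset.sum_apply]
      rw [h3]
      exact Submodule.sum_mem _ fun j _ => hterm j
  · have h0 : (fun z : V → Bool => ∑ j : Fin p, (0 : (V → Bool) → ZMod p) (fun i =>
        if i ∈ I then xor (x j i) (z i) else x j i)) = 0 := by
      funext z
      simp
    rw [h0]
    exact Submodule.zero_mem _
  · intro f g _ _ hf hg
    have h0 : (fun z : V → Bool => ∑ j : Fin p, (f + g) (fun i =>
        if i ∈ I then xor (x j i) (z i) else x j i)) =
        (fun z : V → Bool => ∑ j : Fin p, f (fun i =>
        if i ∈ I then xor (x j i) (z i) else x j i)) +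
        (fun z : V → Bool => ∑ j : Fin p, g (fun i =>
        if i ∈ I then xor (x j i) (z i) else x j i)) := by
      funext z
      simp only [Pi.add_apply, Finset.sum_add_distrib]
    rw [h0]
    exact Submodule.add_mem _ hf hg
  · intro c f _ hf
    have h0 : (fun z : V → Bool => ∑ j : Fin p, (c • f) (fun i =>
        if i ∈ I then xor (x j i) (z i) else x j i)) =
        c • (fun z : V → Bool => ∑ j : Fin p, f (fun i =>
        if i ∈ I then xor (x j i) (z i) else x j i)) := by
      funext z
      simp only [Pi.smul_apply, smul_eq_mul, Finset.mul_sum]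
    rw [h0]
    exact Submodule.smul_mem _ _ hf

end Pool.Agent.Helper90K9.MC
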