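import Pool.Agent.Helper89K9.MC.Stm
import Pool.Agent.TH163.AC2.Run

/-! # Project MC, leaf HIST: the earlier answers (helper90) -/

set_option autoImplicit false

namespace Pool.Agent.Helper90K9.MC

open Finset
open H746R3.Inv (LD)
open Pool.Agent.Helper89K9.MC
open Pool.Agent.TH163.AC2 (Alg coord toM toMat gm gm_eq toM_mulVec lenE rightE mavg)
open Pool.Agent.H699R2.OMV (Prog Vec Mat IsProb before avg)

namespace HistL

/-- the sign -/
noncomputable def sg (z : ZMod 2) : ℂ := if z = 0 then 1 else -1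

theorem z2 (a : ZMod 2) : a = 0 ∨ a = 1 := by
  fin_cases a
  · left; rfl
  · right; rfl

theorem sg_zero : sg 0 = 1 := if_pos rfl

theorem sg_one : sg 1 = -1 := if_neg (by decide)

theorem sg_add (a b : ZMod 2) : sg (a + b) = sg a * sg b := by
  rcases z2 a with rfl | rfl <;> rcases z2 b with rfl | rfl
  · rw [add_zero, sg_zero, mul_one]
  · rw [zero_add, sg_zero, one_mul]
  · rw [add_zero, sg_zero, mul_one]
  · rw [show (1 : ZMod 2) + 1 = 0 by decide, sg_zero, sg_one]; norm_num

theorem norm_sg (a : ZMod 2) : ‖sg a‖ = 1 := by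
  rcases z2 a with rfl | rfl
  · rw [sg_zero, norm_one]
  · rw [sg_one, norm_neg, norm_one]

theorem sg_sum {ι : Type} [DecidableEq ι] (s : Finset ι) (f : ι → ZMod 2) :
    sg (∑ i ∈ s, f i) = ∏ i ∈ s, sg (f i) := by
  induction s using Finset.induction_on with
  | empty => rw [Finset.sum_empty, Finset.prod_empty, sg_zero]
  | insert i s hi ih => rw [Finset.sum_insert hi, Finset.prod_insert hi, sg_add, ih]

/-- the indicator function of zero -/
theorem ind_one (z : ZMod 2) : (if z = 0 then (1 : ℂ) else 0) = ∑ c : ZMod 2, 1 / 2 * sg (c * z) := by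
  have h2 : (univ : Finset (ZMod 2)) = {0, 1} := by decide
  rw [h2, Finset.sum_pair (by decide), zero_mul, one_mul, sg_zero]
  rcases z2 z with rfl | rfl
  · rw [if_pos rfl, sg_zero]; norm_num
  · rw [if_neg (by decide), sg_one]; norm_num

theorem ind_all {ι : Type} [Fintype ι] [DecidableEq ι] (z : ι → ZMod 2) :
    (if ∀ e, z e = 0 then (1 : ℂ) else 0) =
      ∑ c : ι → ZMod 2, (1 / 2) ^ Fintype.card ι * ∏ e, sg (c e * z e) := by
  have h1 : (if ∀ e, z e = 0 then (1 : ℂ) else 0) = ∏ e, (if z e = 0 then (1 : ℂ) else 0) := by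
    split_ifs with h
    · rw [Finset.prod_eq_one]
      intro e _
      rw [if_pos (h e)]
    · push Not at h
      obtain ⟨e, he⟩ := h
      rw [Finset.prod_eq_zero (mem_univ e)]
      rw [if_neg he]
  rw [h1, Finset.prod_congr rfl fun e _ => ind_one (z e)]
  have h5 := Finset.prod_univ_sum (fun _ : ι => (univ : Finset (ZMod 2)))
    (fun e c => 1 / 2 * sg (c * z e))
  rw [Fintype.piFinset_univ] at h5
  rw [h5]
  refine Finset.sum_congr rfl fun c _ => ?_
  rw [Finset.prod_mul_distrib, Finset.prod_const, card_univ]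

/-- one entry of the product as a linear form -/
def lf {n : ℕ} (B : Fin n → (Mat n)ˣ) (x : Fin n × Fin n → Bool) (r : Fin n) :
    Vec n →ₗ[ZMod 2] ZMod 2 :=
  (LinearMap.proj r).comp (Matrix.mulVecLin (toMat x * (↑(B r)⁻¹ : Mat n)))

theorem lf_apply {n : ℕ} (B : Fin n → (Mat n)ˣ) (x : Fin n × Fin n → Bool) (r : Fin n)
    (v : Vec n) : lf B x r v = gm B x v r := by
  unfold lf gm
  rw [Matrix.mulVec_mulVec]
  rfl

/-- the sign of one entry of the product -/
theorem sg_gm {n : ℕ} (B : Fin n → (Mat n)ˣ) (x : Fin n × Fin n → Bool) (r : Fin n)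
    (v : Vec n) : sg (gm B x v r) =
      ∏ j, if ((↑(B r)⁻¹ : Mat n).mulVec v) j ≠ 0 then (if x (r, j) then (-1 : ℂ) else 1) else 1 := by
  unfold gm Matrix.mulVec dotProduct
  rw [sg_sum]
  refine Finset.prod_congr rfl fun j _ => ?_
  change sg (toMat x r j * (∑ i, (↑(B r)⁻¹ : Mat n) j i * v i)) =
    if (∑ i, (↑(B r)⁻¹ : Mat n) j i * v i) ≠ 0 then (if x (r, j) then (-1 : ℂ) else 1) else 1
  rcases z2 (∑ i, (↑(B r)⁻¹ : Mat n) j i * v i) with h | h
  · rw [h, mul_zero, sg_zero, if_neg (by simp)]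
  · rw [h, mul_one, if_pos one_ne_zero]
    unfold toMat
    split_ifs
    · exact sg_one
    · exact sg_zero

end HistL

open HistL

theorem hist : S_HIST := by
  classical
  intro p hp n G B h v hgood S y D b hb0 hb1 hcor k hk Q hQ
  by_cases hex : ∃ x0, h.map (toM G B x0).mulVec = y
  swap
  · have h0 : ∀ x, (if h.map (toM G B x).mulVec = y then sgn S (gm B x v) else 0) *
        ZMod.stdAddChar (Q x) = 0 := by
      intro x
      rw [if_neg fun hh => hex ⟨x, hh⟩, zero_mul]
    rw [Finset.sum_congr rfl fun x _ => h0 x, Finset.sum_const_zero, norm_zero]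
    positivity
  obtain ⟨x0, hx0⟩ := hex
  -- the condition
  have hcond : ∀ x, h.map (toM G B x).mulVec = y ↔ ∀ e : Fin h.length × Fin n,
      gm B x (h.get e.1) e.2 + gm B x0 (h.get e.1) e.2 = 0 := by
    intro x
    rw [← hx0, List.map_inj_left]
    have hadd : ∀ a c : ZMod 2, a + c = 0 ↔ a = c := by decide
    constructor
    · intro hh e
      rw [hadd, gm_eq G, gm_eq G, hh _ (List.get_mem _ _)]
    · intro hh a ha
      obtain ⟨i, rfl⟩ := List.mem_iff_get.1 ha
      rw [toM_mulVec, toM_mulVec]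
      congr 1
      funext r
      exact (hadd _ _).1 (hh (i, r))
  -- the sets
  obtain ⟨u, hu⟩ : ∃ u : (Fin h.length × Fin n → ZMod 2) → Fin n → Vec n, ∀ c r,
      u c r = (if r ∈ S then v else 0) + ∑ i, c (i, r) • h.get i := ⟨_, fun _ _ => rfl⟩
  obtain ⟨W, hW⟩ : ∃ W : (Fin h.length × Fin n → ZMod 2) → Finset (Fin n × Fin n), ∀ c,
      W c = univ.filter fun e : Fin n × Fin n =>
        ((↑(B e.1)⁻¹ : Mat n).mulVec (u c e.1)) e.2 ≠ 0 := ⟨_, fun _ => rfl⟩
  have hchi : ∀ c x, chi (W c) x = ∏ r, sg (gm B x (u c r) r) := by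
    intro c x
    unfold chi
    rw [hW, Finset.prod_filter, Fintype.prod_prod_type]
    refine Finset.prod_congr rfl fun r _ => ?_
    rw [sg_gm]
  have hlin : ∀ c x, (∏ e : Fin h.length × Fin n, sg (c e * gm B x (h.get e.1) e.2)) *
      sgn S (gm B x v) = chi (W c) x := by
    intro c x
    rw [hchi, Fintype.prod_prod_type_right]
    have h1 : sgn S (gm B x v) = ∏ r, sg (if r ∈ S then gm B x v r else 0) := by
      unfold sgn
      rw [← Finset.prod_filter_mul_prod_filter_not univ (fun r => r ∈ S)]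
      rw [Finset.prod_eq_one (s := univ.filter fun r => ¬ r ∈ S), mul_one]
      · have h2 : (univ.filter fun r => r ∈ S) = S := by ext i; simp
        rw [h2]
        refine Finset.prod_congr rfl fun r hr => ?_
        rw [if_pos hr]
        rfl
      · intro r hr
        rw [if_neg (mem_filter.1 hr).2, sg_zero]
    rw [h1, ← Finset.prod_mul_distrib]
    refine Finset.prod_congr rfl fun r _ => ?_
    rw [← sg_sum, ← sg_add]
    congr 1
    rw [hu, ← lf_apply B x r ((if r ∈ S then v else 0) + ∑ i, c (i, r) • h.get i), map_add,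
      map_sum, add_comm]
    congr 1
    · split_ifs
      · rw [lf_apply]
      · rw [map_zero]
    · refine Finset.sum_congr rfl fun i _ => ?_
      rw [map_smul, lf_apply, smul_eq_mul]
  -- the weights of the sets
  have hcard : ∀ c, k ≤ (W c).card := by
    intro c
    have h1 : ∀ r ∈ S, n ≤ 16 * wt ((↑(B r)⁻¹ : Mat n).mulVec (u c r)) := by
      intro r hr
      rw [hu, if_pos hr]
      exact hgood r fun i => c (i, r)
    have h2 : ∑ r ∈ S, wt ((↑(B r)⁻¹ : Mat n).mulVec (u c r)) ≤ (W c).card := by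
      have h3 : (W c).card = ∑ r, wt ((↑(B r)⁻¹ : Mat n).mulVec (u c r)) := by
        rw [hW, Finset.card_filter, Fintype.sum_prod_type]
        refine Finset.sum_congr rfl fun r _ => ?_
        unfold wt
        rw [Finset.card_filter]
      rw [h3]
      exact Finset.sum_le_sum_of_subset (subset_univ _)
    have h4 : n * S.card ≤ 16 * ∑ r ∈ S, wt ((↑(B r)⁻¹ : Mat n).mulVec (u c r)) := by
      rw [Finset.mul_sum, mul_comm, ← smul_eq_mul, ← Finset.sum_const]
      exact Finset.sum_le_sum h1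
    omega
  -- expansion
  obtain ⟨ep, hep⟩ : ∃ ep : (Fin h.length × Fin n → ZMod 2) → ℂ, ∀ c,
      ep c = ∏ e : Fin h.length × Fin n, sg (c e * gm B x0 (h.get e.1) e.2) := ⟨_, fun _ => rfl⟩
  have hepn : ∀ c, ‖ep c‖ = 1 := by
    intro c
    rw [hep, norm_prod]
    exact Finset.prod_eq_one fun e _ => norm_sg _
  have hexp : ∀ x, (if h.map (toM G B x).mulVec = y then sgn S (gm B x v) else 0) =
      ∑ c : Fin h.length × Fin n → ZMod 2,
        (1 / 2) ^ Fintype.card (Fin h.length × Fin n) * ep c * chi (W c) x := by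
    intro x
    have h1 : (if h.map (toM G B x).mulVec = y then sgn S (gm B x v) else 0) =
        (if ∀ e : Fin h.length × Fin n, gm B x (h.get e.1) e.2 + gm B x0 (h.get e.1) e.2 = 0
          then (1 : ℂ) else 0) * sgn S (gm B x v) := by
      by_cases hc : h.map (toM G B x).mulVec = y
      · rw [if_pos hc, if_pos ((hcond x).1 hc), one_mul]
      · rw [if_neg hc, if_neg fun h2 => hc ((hcond x).2 h2), zero_mul]
    rw [h1, ind_all, Finset.sum_mul]
    refine Finset.sum_congr rfl fun c _ => ?_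
    rw [← hlin, hep]
    have h2 : ∏ e : Fin h.length × Fin n,
        sg (c e * (gm B x (h.get e.1) e.2 + gm B x0 (h.get e.1) e.2)) =
        (∏ e : Fin h.length × Fin n, sg (c e * gm B x (h.get e.1) e.2)) *
        ∏ e : Fin h.length × Fin n, sg (c e * gm B x0 (h.get e.1) e.2) := by
      rw [← Finset.prod_mul_distrib]
      refine Finset.prod_congr rfl fun e _ => ?_
      rw [mul_add, sg_add]
    rw [h2]
    ring
  have hsum : ∑ x, (if h.map (toM G B x).mulVec = y then sgn S (gm B x v) else 0) *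
      ZMod.stdAddChar (Q x) = ∑ c : Fin h.length × Fin n → ZMod 2,
        (1 / 2) ^ Fintype.card (Fin h.length × Fin n) * ep c *
          ∑ x, chi (W c) x * ZMod.stdAddChar (Q x) := by
    rw [Finset.sum_congr rfl fun x _ => by rw [hexp x, Finset.sum_mul], Finset.sum_comm]
    refine Finset.sum_congr rfl fun c _ => ?_
    rw [Finset.mul_sum]
    refine Finset.sum_congr rfl fun x _ => ?_
    ring
  rw [hsum]
  refine (norm_sum_le _ _).trans ?_
  have hterm : ∀ c ∈ (univ : Finset (Fin h.length × Fin n → ZMod 2)),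
      ‖(1 / 2) ^ Fintype.card (Fin h.length × Fin n) * ep c *
        ∑ x, chi (W c) x * ZMod.stdAddChar (Q x)‖ ≤
      (1 / 2) ^ Fintype.card (Fin h.length × Fin n) * (2 ^ (n * n) * b ^ k) := by
    intro c _
    rw [norm_mul, norm_mul, hepn, mul_one, norm_pow]
    have h1 : ‖(1 / 2 : ℂ)‖ = 1 / 2 := by norm_num
    rw [h1]
    refine mul_le_mul_of_nonneg_left ?_ (by positivity)
    refine (hcor Q hQ (W c)).trans ?_
    exact mul_le_mul_of_nonneg_left (pow_le_pow_of_le_one hb0 hb1 (hcard c)) (by positivity)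
  refine (Finset.sum_le_sum hterm).trans (le_of_eq ?_)
  rw [Finset.sum_const, card_univ, Fintype.card_fun, ZMod.card, nsmul_eq_mul]
  push_cast
  rw [← mul_assoc, ← mul_pow]
  norm_num

end Pool.Agent.Helper90K9.MC
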