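import Pool.Agent.Helper89K9.MC.Stm

/-! # Project MC, leaf TAIL: few small sets (helper90) -/

set_option autoImplicit false

namespace Pool.Agent.Helper90K9.MC

open Finset
open Pool.Agent.Helper89K9.MC

theorem tail : S_TAIL := by
  classical
  intro n
  obtain ⟨N, hN⟩ : ∃ N, (univ.filter fun S : Finset (Fin n) => 4 * S.card < n).card = N := ⟨_, rfl⟩
  rw [hN]
  obtain ⟨k, hk⟩ : ∃ k, k = n - (n - 1) / 4 := ⟨_, rfl⟩
  have hk4 : 3 * n ≤ 4 * k := by omega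
  have h1 : N * 3 ^ k ≤ 4 ^ n := by
    have h2 := Finset.sum_pow_mul_eq_add_pow (1 : ℕ) 3 (univ : Finset (Fin n))
    rw [card_univ, Fintype.card_fin, Finset.powerset_univ] at h2
    have h3 : (1 + 3 : ℕ) ^ n = 4 ^ n := by norm_num
    rw [← h3, ← h2, ← hN, Finset.card_eq_sum_ones, Finset.sum_mul]
    calc ∑ S ∈ univ.filter (fun S : Finset (Fin n) => 4 * S.card < n), 1 * 3 ^ k
        ≤ ∑ S ∈ univ.filter (fun S : Finset (Fin n) => 4 * S.card < n),
            1 ^ S.card * 3 ^ (n - S.card) := by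
          refine Finset.sum_le_sum fun S hS => ?_
          rw [mem_filter] at hS
          rw [one_pow]
          refine Nat.mul_le_mul_left _ (Nat.pow_le_pow_right (by norm_num) ?_)
          omega
      _ ≤ ∑ S : Finset (Fin n), 1 ^ S.card * 3 ^ (n - S.card) :=
          Finset.sum_le_sum_of_subset (Finset.filter_subset _ _)
  have h4 : N ^ 4 * 27 ^ n ≤ 256 ^ n := by
    calc N ^ 4 * 27 ^ n = N ^ 4 * 3 ^ (3 * n) := by rw [pow_mul]; norm_num
      _ ≤ N ^ 4 * 3 ^ (4 * k) := Nat.mul_le_mul_left _ (Nat.pow_le_pow_right (by norm_num) hk4)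
      _ = (N * 3 ^ k) ^ 4 := by rw [mul_pow, ← pow_mul, mul_comm 4 k]
      _ ≤ (4 ^ n) ^ 4 := Nat.pow_le_pow_left h1 4
      _ = 256 ^ n := by rw [← pow_mul, mul_comm n 4, pow_mul]; norm_num
  have h5 : (N * 2 ^ (n / 8)) ^ 32 * 27 ^ (8 * n) ≤ (2 ^ n) ^ 32 * 27 ^ (8 * n) := by
    calc (N * 2 ^ (n / 8)) ^ 32 * 27 ^ (8 * n)
        = (N ^ 4 * 27 ^ n) ^ 8 * 2 ^ (n / 8 * 32) := by
          rw [mul_pow, mul_pow, ← pow_mul, ← pow_mul, ← pow_mul, mul_comm 8 n]; ring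
      _ ≤ (256 ^ n) ^ 8 * 2 ^ (4 * n) :=
          Nat.mul_le_mul (Nat.pow_le_pow_left h4 8) (Nat.pow_le_pow_right (by norm_num) (by omega))
      _ = (2 ^ 68) ^ n := by
          rw [← pow_mul, ← pow_mul, show (256 : ℕ) = 2 ^ 8 by norm_num, ← pow_mul, ← pow_add]
          congr 1
          ring
      _ ≤ (2 ^ 32 * 27 ^ 8) ^ n := Nat.pow_le_pow_left (by norm_num) n
      _ = (2 ^ n) ^ 32 * 27 ^ (8 * n) := by
          rw [mul_pow, ← pow_mul, ← pow_mul, ← pow_mul, mul_comm 32 n]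
  have h6 : (N * 2 ^ (n / 8)) ^ 32 ≤ (2 ^ n) ^ 32 :=
    Nat.le_of_mul_le_mul_right h5 (by positivity)
  exact (Nat.pow_le_pow_iff_left (by norm_num)).1 h6

end Pool.Agent.Helper90K9.MC
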